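import Mathlib

-- part Pool.Agent.Lib.MP_f387d3_mp.Rec
section

/-!
Integer array `G a b` with generating function `1 / (1 - x - y + 2 x y)` and its
contiguous relations; the three-term recurrence along an antidiagonal.
-/

set_option autoImplicit false

namespace Pool.Agent.Lib.MP_f387d3_mp

/-- The array with generating function `1 / (1 - x - y + 2 x y)`. -/
def F : ℕ → ℕ → ℤ
  | 0, _ => 1
  | _ + 1, 0 => 1
  | a + 1, b + 1 => F (a + 1) b + F a (b + 1) - 2 * F a b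

theorem F_zero_left (b : ℕ) : F 0 b = 1 := by
  rw [F]

theorem F_zero_right (a : ℕ) : F a 0 = 1 := by
  cases a with
  | zero => rw [F]
  | succ a => rw [F]

theorem F_succ_succ (a b : ℕ) :
    F (a + 1) (b + 1) = F (a + 1) b + F a (b + 1) - 2 * F a b := by
  rw [F]

theorem F_one_left (b : ℕ) : F 1 b = 1 - b := by
  induction b with
  | zero => simp [F_zero_right]
  | succ b ih =>
    have := F_succ_succ 0 b
    simp only [zero_add, F_zero_left] at this
    rw [this, ih]; push_cast; ring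

theorem F_one_right (a : ℕ) : F a 1 = 1 - a := by
  induction a with
  | zero => simp [F_zero_left]
  | succ a ih =>
    have := F_succ_succ a 0
    simp only [zero_add, F_zero_right] at this
    rw [this, ih]; push_cast; ring

theorem F_boost (a b : ℕ) :
    ((b : ℤ) - a) * F (a + 1) (b + 1) = (b + 1) * F (a + 1) b - (a + 1) * F a (b + 1) := by
  induction a generalizing b with
  | zero =>
    simp only [zero_add, F_one_left, F_zero_left]
    push_cast; ring
  | succ a iha =>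
    induction b with
    | zero =>
      simp only [zero_add, F_one_right, F_zero_right]
      push_cast; ring
    | succ b ihb =>
      have h1 := iha b
      have h2 := iha (b + 1)
      have r1 := F_succ_succ (a + 1) (b + 1)
      have r2 := F_succ_succ (a + 1) b
      have r3 := F_succ_succ a (b + 1)
      have r4 := F_succ_succ a b
      push_cast at *
      linear_combination ((b : ℤ) - a) * r1 + ihb + h2 - 2 * h1 - ((b : ℤ) + 2) * r2
        + ((a : ℤ) + 2) * r3 + 0 * r4 + (r2 - r3)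

/-- `F` extended by zero to integer arguments. -/
def G (a b : ℤ) : ℤ := if 0 ≤ a ∧ 0 ≤ b then F a.toNat b.toNat else 0

theorem G_nat (a b : ℕ) : G a b = F a b := by
  simp [G]

theorem G_neg_left {a : ℤ} (b : ℤ) (h : a < 0) : G a b = 0 := by
  simp [G]; intro h1; omega

theorem G_neg_right (a : ℤ) {b : ℤ} (h : b < 0) : G a b = 0 := by
  simp [G]; intro _ h1; omega

theorem G_zero_right {a : ℤ} (h : 0 ≤ a) : G a 0 = 1 := by
  simp [G, h, F_zero_right]

theorem G_zero_left {b : ℤ} (h : 0 ≤ b) : G 0 b = 1 := by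
  simp [G, h, F_zero_left]

theorem G_rec (a b : ℤ) (h : ¬ (a = -1 ∧ b = -1)) :
    G (a + 1) (b + 1) = G (a + 1) b + G a (b + 1) - 2 * G a b := by
  rcases lt_or_ge a 0 with ha | ha
  · rw [G_neg_left (b + 1) ha, G_neg_left b ha]
    rcases lt_or_ge (a + 1) 0 with ha' | ha'
    · rw [G_neg_left _ ha', G_neg_left _ ha']; simp
    · have ha1 : a + 1 = 0 := by omega
      rw [ha1]
      rcases lt_or_ge b 0 with hb | hb
      · have hb1 : b + 1 < 0 := by omega
        rw [G_neg_right _ hb, G_neg_right _ hb1]; simp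
      · rw [G_zero_left hb, G_zero_left (by omega)]; simp
  · rcases lt_or_ge b 0 with hb | hb
    · rw [G_neg_right _ hb, G_neg_right _ hb]
      rcases lt_or_ge (b + 1) 0 with hb' | hb'
      · rw [G_neg_right _ hb', G_neg_right _ hb']; simp
      · have hb1 : b + 1 = 0 := by omega
        rw [hb1, G_zero_right ha, G_zero_right (by omega)]; simp
    · obtain ⟨a, rfl⟩ := Int.eq_ofNat_of_zero_le ha
      obtain ⟨b, rfl⟩ := Int.eq_ofNat_of_zero_le hb
      have := F_succ_succ a b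
      rw [← G_nat, ← G_nat, ← G_nat, ← G_nat] at this
      push_cast at this
      exact this

theorem G_boost (a b : ℤ) :
    (b - a) * G (a + 1) (b + 1) = (b + 1) * G (a + 1) b - (a + 1) * G a (b + 1) := by
  rcases lt_or_ge a 0 with ha | ha
  · rw [G_neg_left (b + 1) ha]
    rcases lt_or_ge (a + 1) 0 with ha' | ha'
    · rw [G_neg_left _ ha', G_neg_left _ ha']; simp
    · have ha1 : a = -1 := by omega
      subst ha1
      simp only [neg_add_cancel]
      rcases lt_or_ge b 0 with hb | hb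
      · rcases lt_or_ge (b + 1) 0 with hb' | hb'
        · rw [G_neg_right _ hb, G_neg_right _ hb']; simp
        · have hb1 : b = -1 := by omega
          subst hb1; simp
      · rw [G_zero_left hb, G_zero_left (by omega)]; ring
  · rcases lt_or_ge b 0 with hb | hb
    · rw [G_neg_right _ hb]
      rcases lt_or_ge (b + 1) 0 with hb' | hb'
      · rw [G_neg_right _ hb', G_neg_right _ hb']; simp
      · have hb1 : b = -1 := by omega
        subst hb1
        simp only [neg_add_cancel]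
        rw [G_zero_right ha, G_zero_right (by omega)]; ring
    · obtain ⟨a, rfl⟩ := Int.eq_ofNat_of_zero_le ha
      obtain ⟨b, rfl⟩ := Int.eq_ofNat_of_zero_le hb
      have := F_boost a b
      rw [← G_nat, ← G_nat, ← G_nat] at this
      push_cast at this
      exact this

theorem G_boost' (a b : ℤ) :
    2 * (b - a) * G a b = (b + 1) * G a (b + 1) - (a + 1) * G (a + 1) b := by
  by_cases h : a = -1 ∧ b = -1
  · obtain ⟨rfl, rfl⟩ := h
    simp
  · have h1 := G_rec a b h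
    have h2 := G_boost a b
    linear_combination (b - a) * h1 - h2

/-- Three-term recurrence along the antidiagonal. -/
theorem G_three (a b : ℤ) :
    2 * (a - b) * ((a - b) ^ 2 - 1) * G (a + 1) (b + 1)
      = (b + 1) * (a - b - 1) * ((b + 1) * G (a + 1) (b + 1) - (a + 2) * G (a + 2) b)
        - (a + 1) * (a - b + 1) * ((b + 2) * G a (b + 2) - (a + 1) * G (a + 1) (b + 1)) := by
  have h1 := G_boost a b
  have h2 := G_boost' (a + 1) b
  have h3 := G_boost' a (b + 1)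
  have e1 : a + 1 + 1 = a + 2 := by ring
  have e2 : b + 1 + 1 = b + 2 := by ring
  rw [e1] at h2
  rw [e2] at h3
  linear_combination (-2 * ((a - b) ^ 2 - 1)) * h1 + (b + 1) * (a - b - 1) * h2
    - (a + 1) * (a - b + 1) * h3

end Pool.Agent.Lib.MP_f387d3_mp
end

-- part Pool.Agent.Lib.MP_f387d3_mp.Paths
section

/-!
The checker-path sums, their first-step recurrence and their closed form through `G`.
-/

set_option autoImplicit false

namespace Pool.Agent.Lib.MP_f387d3_mp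

open Finset

/-- Path sum over paths with `n + 1` steps, first step `c`, endpoint `y`. -/
noncomputable def T (n : ℕ) (c : Bool) (y : ℤ) : ℂ :=
  ∑ s ∈ Finset.univ.filter
      (fun s : Fin (n+1) → Bool =>
        s 0 = c ∧ ∑ i, (if s i then (1:ℤ) else -1) = y),
    (-Complex.I) ^ ((Finset.univ.filter
      (fun i : Fin n => s i.castSucc ≠ s i.succ)).card)

theorem T_eq (n : ℕ) (c : Bool) (y : ℤ) :
    T n c y = ∑ s : Fin (n+1) → Bool,
      if s 0 = c ∧ ∑ i, (if s i then (1:ℤ) else -1) = y then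
        (-Complex.I) ^ (∑ i : Fin n, if s i.castSucc ≠ s i.succ then 1 else 0) else 0 := by
  unfold T
  rw [Finset.sum_filter]
  refine Finset.sum_congr rfl fun s _ => ?_
  rw [Finset.card_filter]

theorem T_zero (c : Bool) (y : ℤ) :
    T 0 c y = if (if c then (1:ℤ) else -1) = y then 1 else 0 := by
  rw [T_eq, ← (Equiv.funUnique (Fin 1) Bool).symm.sum_comp, Fintype.sum_bool]
  cases c <;> simp

theorem T_succ (n : ℕ) (c : Bool) (y : ℤ) :
    T (n + 1) c y = T n c (y - (if c then 1 else -1))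
      + (-Complex.I) * T n (!c) (y - (if c then 1 else -1)) := by
  rw [T_eq, T_eq, T_eq, ← (Fin.consEquiv (fun _ : Fin (n + 2) => Bool)).sum_comp,
    Fintype.sum_prod_type, Finset.mul_sum, ← Finset.sum_add_distrib, Finset.sum_comm]
  refine Finset.sum_congr rfl fun s _ => ?_
  have key : ∀ d : Bool,
      (∑ i : Fin (n + 1), if (Fin.cons d s : Fin (n + 2) → Bool) i.castSucc
          ≠ (Fin.cons d s : Fin (n + 2) → Bool) i.succ then 1 else 0)
        = (if d ≠ s 0 then 1 else 0)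
          + ∑ i : Fin n, if s i.castSucc ≠ s i.succ then 1 else 0 := by
    intro d
    rw [Fin.sum_univ_succ]
    simp only [Fin.castSucc_zero, Fin.cons_zero, Fin.cons_succ, ← Fin.succ_castSucc]
  have key2 : ∀ d : Bool,
      (∑ i : Fin (n + 2), if (Fin.cons d s : Fin (n + 2) → Bool) i then (1:ℤ) else -1)
        = (if d then 1 else -1) + ∑ i : Fin (n + 1), if s i then (1:ℤ) else -1 := by
    intro d
    rw [Fin.sum_univ_succ]
    simp only [Fin.cons_zero, Fin.cons_succ]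
  simp only [Fin.consEquiv_apply, Fin.cons_zero, key, key2, Fintype.sum_bool]
  generalize (∑ i : Fin (n + 1), if s i then (1:ℤ) else -1) = S
  generalize (∑ i : Fin n, if s i.castSucc ≠ s i.succ then 1 else 0) = k
  have e : (S = y + 1) ↔ (S + -1 = y) := by omega
  cases c <;> cases h : s 0 <;> simp [pow_add, eq_sub_iff_add_eq, add_comm, mul_comm, e]

theorem T_parity (n : ℕ) (c : Bool) (y : ℤ) (h : (y + n) % 2 = 0) : T n c y = 0 := by
  induction n generalizing c y with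
  | zero =>
    rw [T_zero]
    cases c <;> simp at h ⊢ <;> omega
  | succ n ih =>
    rw [T_succ, ih, ih]
    · simp
    · cases c <;> simp at h ⊢ <;> omega
    · cases c <;> simp at h ⊢ <;> omega

theorem T_closed (n : ℕ) (a b : ℤ) (h : a + b = n) :
    T n true (a + 1 - b) = (G a b : ℂ) - (1 + Complex.I) * G a (b - 1) ∧
    T n false (a - (b + 1)) = (G a b : ℂ) - (1 + Complex.I) * G (a - 1) b := by
  induction n generalizing a b with
  | zero =>
    rw [T_zero, T_zero]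
    simp only [if_true, Bool.false_eq_true, if_false]
    rcases lt_trichotomy a 0 with ha | ha | ha
    · rw [G_neg_left _ ha, G_neg_left _ ha, G_neg_left _ (by omega : a - 1 < 0),
        if_neg (by omega), if_neg (by omega)]
      simp
    · have hb : b = 0 := by omega
      subst ha; subst hb
      rw [G_neg_right _ (by omega : (0:ℤ) - 1 < 0), G_neg_left _ (by omega : (0:ℤ) - 1 < 0),
        G_zero_left le_rfl]
      simp
    · have hb : b < 0 := by omega
      rw [G_neg_right _ hb, G_neg_right _ hb, G_neg_right _ (by omega : b - 1 < 0),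
        if_neg (by omega), if_neg (by omega)]
      simp
  | succ n ih =>
    have hrec := G_rec (a - 1) (b - 1) (by omega)
    simp only [sub_add_cancel] at hrec
    have hrecC : (G a b : ℂ) = G a (b - 1) + G (a - 1) b - 2 * G (a - 1) (b - 1) := by
      exact_mod_cast hrec
    have h1 := ih (a - 1) b (by push_cast at h; omega)
    have h2 := ih a (b - 1) (by push_cast at h; omega)
    have e1 : a - 1 + 1 - b = a - b := by ring
    have e2 : a - (b - 1 + 1) = a - b := by ring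
    have e3 : a + 1 - (b - 1) = a - b + 2 := by ring
    have e4 : a - 1 - (b + 1) = a - b - 2 := by ring
    rw [e1, e4] at h1
    rw [e2, e3] at h2
    rw [T_succ, T_succ]
    simp only [if_true, Bool.false_eq_true, if_false, Bool.not_true, Bool.not_false]
    have e5 : a + 1 - b - 1 = a - b := by ring
    have e6 : a - (b + 1) - -1 = a - b := by ring
    rw [e5, e6, h1.1, h2.2, hrecC]
    have hI : Complex.I * Complex.I = -1 := Complex.I_mul_I
    constructor
    · linear_combination (G (a - 1) (b - 1) : ℂ) * hI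
    · linear_combination (G (a - 1) (b - 1) : ℂ) * hI

theorem T_normSq (n : ℕ) (a b : ℤ) (h : a + b = n) :
    ‖T n true (a + 1 - b)‖ ^ 2 = ((G a b : ℝ) - G a (b - 1)) ^ 2 + (G a (b - 1) : ℝ) ^ 2 := by
  rw [(T_closed n a b h).1, ← Complex.normSq_eq_norm_sq, Complex.normSq_apply]
  simp
  ring

end Pool.Agent.Lib.MP_f387d3_mp
end

-- part Pool.Agent.Lib.MP_f387d3_mp.Mono
section

/-!
Monotonicity of the sign-corrected antidiagonal sequence past the turning point,
by a barrier argument for the discrete Riccati equation.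
-/

set_option autoImplicit false

namespace Pool.Agent.Lib.MP_f387d3_mp

/-- Sign-corrected antidiagonal sequence. -/
noncomputable def g (N : ℤ) (j : ℕ) : ℝ := (-1) ^ j * (G (N - j) j : ℝ)

/-- The previous term of the sequence (zero for `j = 0`). -/
noncomputable def gm (N : ℤ) (j : ℕ) : ℝ := -(-1) ^ j * (G (N - j + 1) (j - 1) : ℝ)

/-- The flux. -/
noncomputable def W (N : ℤ) (j : ℕ) : ℝ :=
  ((N : ℝ) - j + 1) * j * (g N j - gm N j) / ((N : ℝ) - 2 * j + 1)

/-- The potential. -/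
noncomputable def V (m δ : ℝ) : ℝ := δ * (2 * δ ^ 2 - 2 - m ^ 2) / (δ ^ 2 - 1)

theorem gm_succ (N : ℤ) (j : ℕ) : gm N (j + 1) = g N j := by
  unfold gm g
  have e1 : N - ((j + 1 : ℕ) : ℤ) + 1 = N - j := by push_cast; ring
  have e2 : ((j + 1 : ℕ) : ℤ) - 1 = j := by push_cast; ring
  rw [e1, e2, pow_succ]; ring

theorem gm_zero (N : ℤ) : gm N 0 = 0 := by
  unfold gm
  rw [G_neg_right _ (by norm_num)]; simp

theorem g_zero {N : ℤ} (h : 0 ≤ N) : g N 0 = 1 := by
  unfold g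
  simp [G_zero_right h]

theorem W_zero (N : ℤ) : W N 0 = 0 := by
  unfold W; simp

theorem W_succ (N : ℤ) (j : ℕ) (h : 1 < (N : ℝ) - 2 * j) :
    W N (j + 1) = W N j + V (N + 1) (N - 2 * j) * g N j := by
  have h3 := G_three (N - j - 1) (j - 1)
  have e1 : N - j - 1 + 1 = N - j := by ring
  have e2 : (j : ℤ) - 1 + 1 = j := by ring
  have e3 : N - j - 1 + 2 = N - j + 1 := by ring
  have e4 : (j : ℤ) - 1 + 2 = j + 1 := by ring
  rw [e1, e2, e3, e4] at h3
  have h3R := congrArg (fun z : ℤ => (z : ℝ)) h3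
  push_cast at h3R
  unfold W V
  rw [gm_succ]
  unfold g gm
  have e5 : N - ((j + 1 : ℕ) : ℤ) = N - j - 1 := by push_cast; ring
  have e6 : ((j + 1 : ℕ) : ℤ) = j + 1 := by push_cast; ring
  rw [e5, e6]
  have d1 : (N : ℝ) - 2 * j + 1 ≠ 0 := by linarith
  have d2 : (N : ℝ) - 2 * j - 1 ≠ 0 := by linarith
  have d3 : (N : ℝ) - 2 * ((j + 1 : ℕ) : ℝ) + 1 = (N : ℝ) - 2 * j - 1 := by push_cast; ring
  have d4 : ((N : ℝ) - 2 * j) ^ 2 - 1
      = ((N : ℝ) - 2 * j + 1) * ((N : ℝ) - 2 * j - 1) := by ring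
  rw [d3, d4, div_mul_eq_mul_div, div_add_div _ _ d1 (mul_ne_zero d1 d2),
    div_eq_div_iff d2 (mul_ne_zero d1 (mul_ne_zero d1 d2))]
  push_cast
  rw [pow_succ]
  linear_combination (-(-1 : ℝ) ^ j * ((N : ℝ) - 2 * j + 1) * ((N : ℝ) - 2 * j - 1)) * h3R

theorem g_succ (N : ℤ) (j : ℕ) (h : 1 < (N : ℝ) - 2 * j) :
    g N (j + 1) = g N j + (((N : ℝ) - 2 * j - 1) / (((N : ℝ) - j) * (j + 1))) * W N (j + 1) := by
  unfold W
  rw [gm_succ]
  have hj : (0 : ℝ) ≤ j := Nat.cast_nonneg j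
  have d1 : (N : ℝ) - j ≠ 0 := by linarith
  have d2 : (j : ℝ) + 1 ≠ 0 := by linarith
  have d3 : (N : ℝ) - 2 * j - 1 ≠ 0 := by linarith
  have e1 : (N : ℝ) - 2 * ((j + 1 : ℕ) : ℝ) + 1 = (N : ℝ) - 2 * j - 1 := by push_cast; ring
  have e2 : (N : ℝ) - ((j + 1 : ℕ) : ℝ) + 1 = (N : ℝ) - j := by push_cast; ring
  rw [e1, e2]
  push_cast
  field_simp
  ring

theorem r_bounds (N : ℤ) (j : ℕ) (h : 1 < (N : ℝ) - 2 * j) :
    0 ≤ ((N : ℝ) - 2 * j - 1) / (((N : ℝ) - j) * (j + 1)) ∧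
    ((N : ℝ) - 2 * j - 1) / (((N : ℝ) - j) * (j + 1)) * (j + 1) ≤ 1 := by
  have hj : (0 : ℝ) ≤ j := Nat.cast_nonneg j
  have d1 : 0 < (N : ℝ) - j := by linarith
  have d2 : 0 < (j : ℝ) + 1 := by linarith
  constructor
  · apply div_nonneg (by linarith) (by positivity)
  · rw [div_mul_eq_mul_div, div_le_one (by positivity)]
    nlinarith

/-- One step of the barrier argument. -/
theorem step (N : ℤ) (j : ℕ) (h : 1 < (N : ℝ) - 2 * j) (p q η : ℝ)
    (hg : 0 < g N j) (hW : p * g N j ≤ W N j) (hq : 0 ≤ q) (hη : 0 ≤ η)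
    (hV : q + η ≤ p + V (N + 1) (N - 2 * j))
    (hq1 : 2 * q ≤ j + 1) (hq2 : 2 * q ^ 2 ≤ η * (j + 1)) :
    g N j ≤ g N (j + 1) ∧ q * g N (j + 1) ≤ W N (j + 1) := by
  have hs := g_succ N j h
  have hw := W_succ N j h
  obtain ⟨hr0, hr1⟩ := r_bounds N j h
  set r := ((N : ℝ) - 2 * j - 1) / (((N : ℝ) - j) * (j + 1)) with hr
  have hj : (0 : ℝ) < j + 1 := by positivity
  have hW1 : (q + η) * g N j ≤ W N (j + 1) := by
    rw [hw]
    nlinarith [mul_le_mul_of_nonneg_right hV hg.le]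
  have hW0 : 0 ≤ W N (j + 1) := le_trans (by positivity) hW1
  have hrq : 2 * (r * q) ≤ 1 := by
    have : r * (2 * q) ≤ r * (j + 1) := mul_le_mul_of_nonneg_left hq1 hr0
    linarith
  have hrq2 : 2 * (r * q ^ 2) ≤ η := by
    have h1 : r * (2 * q ^ 2) ≤ r * (η * (j + 1)) := mul_le_mul_of_nonneg_left hq2 hr0
    have h2 : η * (r * (j + 1)) ≤ η * 1 := mul_le_mul_of_nonneg_left hr1 hη
    linarith
  constructor
  · rw [hs]
    have := mul_nonneg hr0 hW0
    linarith
  · rw [hs]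
    have h1 : (q + η) * g N j * (1 - r * q) ≤ W N (j + 1) * (1 - r * q) :=
      mul_le_mul_of_nonneg_right hW1 (by linarith)
    have h2 : q ≤ (q + η) * (1 - r * q) := by
      have : η * (r * q) ≤ η * (1 / 2) := mul_le_mul_of_nonneg_left (by linarith) hη
      nlinarith
    have h3 : q * g N j ≤ (q + η) * (1 - r * q) * g N j := mul_le_mul_of_nonneg_right h2 hg.le
    nlinarith

theorem V_nonneg (m σ δ : ℝ) (hσ : 2 * σ ^ 2 = m ^ 2) (hσ1 : 1 ≤ σ) (hδ : σ + 1 ≤ δ) :
    0 ≤ V m δ := by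
  unfold V
  apply div_nonneg
  · apply mul_nonneg (by linarith)
    nlinarith
  · nlinarith

theorem V_lower (m σ δ K : ℝ) (hσ : 2 * σ ^ 2 = m ^ 2) (hK : 0 ≤ K) (hσ1 : 2 * K + 4 ≤ σ)
    (hδ : σ - K ≤ δ) : 2 * (δ - σ) - (5 * K + 2) ≤ V m δ := by
  unfold V
  have hδ4 : K + 4 ≤ δ := by linarith
  have hd : 0 < δ ^ 2 - 1 := by nlinarith
  rw [le_div_iff₀ hd, ← hσ]
  have h0 : 0 ≤ δ := by linarith
  have hσ0 : 0 ≤ σ := by linarith
  have h1 : -K * (δ * σ) ≤ (δ - σ) * (δ * σ) :=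
    mul_le_mul_of_nonneg_right (by linarith) (mul_nonneg h0 hσ0)
  have h2 : K * (δ * σ) ≤ K * (δ * (2 * δ)) :=
    mul_le_mul_of_nonneg_left (mul_le_mul_of_nonneg_left (by linarith) h0) hK
  have h3 : 16 ≤ δ ^ 2 := by nlinarith
  have h4 : K * 16 ≤ K * δ ^ 2 := mul_le_mul_of_nonneg_left h3 hK
  have h5 : 4 * δ ≤ δ ^ 2 := by nlinarith
  nlinarith

/-- First phase: above the turning point. -/
theorem phase_one (N : ℤ) (σ : ℝ) (hσ : 2 * σ ^ 2 = ((N : ℝ) + 1) ^ 2) (hσ1 : 1 ≤ σ) (j : ℕ)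
    (hj : σ + 1 ≤ (N : ℝ) - 2 * j) : 0 < g N j ∧ 0 ≤ W N j := by
  induction j with
  | zero =>
    have hN : (0 : ℝ) ≤ N := by simp at hj; linarith
    have hN' : 0 ≤ N := by exact_mod_cast hN
    rw [g_zero hN', W_zero]; simp
  | succ j ih =>
    have hj' : σ + 1 ≤ (N : ℝ) - 2 * j := by push_cast at hj; linarith
    obtain ⟨h1, h2⟩ := ih hj'
    have hV := V_nonneg _ σ _ hσ hσ1 hj'
    have hj0 : (0 : ℝ) ≤ j := Nat.cast_nonneg j
    have := step N j (by linarith) 0 0 0 h1 (by simpa using h2) le_rfl le_rfl (by linarith)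
      (by linarith) (by simp)
    exact ⟨by linarith [this.1], by simpa using this.2⟩

/-- Second phase: through the turning point. -/
theorem phase_two (N : ℤ) (σ K : ℝ) (hσ : 2 * σ ^ 2 = ((N : ℝ) + 1) ^ 2) (hK : 0 ≤ K)
    (hσ1 : 2 * K + 4 ≤ σ) (I j : ℕ) (hI : 7 * K + 3 ≤ 2 * I)
    (hδ : σ - K ≤ (N : ℝ) - 2 * (j + I))
    (hj : 8 * ((I : ℝ) + 1) ^ 4 ≤ j) (i : ℕ) (hi : i ≤ I + 1) :
    0 < g N (j + i) ∧ (i : ℝ) * (2 * I + 2 - 2 * i) * g N (j + i) ≤ W N (j + i) ∧
      (1 ≤ i → gm N (j + i) ≤ g N (j + i) ∧ 0 < gm N (j + i)) := by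
  have hI0 : (0 : ℝ) ≤ I := Nat.cast_nonneg I
  induction i with
  | zero =>
    have := phase_one N σ hσ (by linarith) j (by linarith)
    simpa using this
  | succ i ih =>
    obtain ⟨h1, h2, -⟩ := ih (by omega)
    have hiI : (i : ℝ) ≤ I := by exact_mod_cast (by omega : i ≤ I)
    have hi0 : (0 : ℝ) ≤ i := Nat.cast_nonneg i
    have hδ' : σ - K ≤ (N : ℝ) - 2 * ((j + i : ℕ) : ℝ) := by push_cast; linarith
    have hV := V_lower _ σ _ K hσ hK hσ1 hδ'
    have hq0 : 0 ≤ ((i : ℝ) + 1) * (2 * I + 2 - 2 * (i + 1)) :=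
      mul_nonneg (by linarith) (by linarith)
    have hq1 : ((i : ℝ) + 1) * (2 * I + 2 - 2 * (i + 1)) ≤ 2 * ((I : ℝ) + 1) ^ 2 := by
      nlinarith
    have hq2 : (((i : ℝ) + 1) * (2 * I + 2 - 2 * (i + 1))) ^ 2 ≤ (2 * ((I : ℝ) + 1) ^ 2) ^ 2 :=
      pow_le_pow_left₀ hq0 hq1 2
    have hI1 : (1 : ℝ) ≤ ((I : ℝ) + 1) ^ 2 := by nlinarith
    have hI2 : ((I : ℝ) + 1) ^ 2 ≤ ((I : ℝ) + 1) ^ 4 := by nlinarith
    have := step N (j + i) (by linarith) ((i : ℝ) * (2 * I + 2 - 2 * i))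
      (((i : ℝ) + 1) * (2 * I + 2 - 2 * (i + 1))) 1 h1 h2 hq0 zero_le_one
      (by push_cast at hV ⊢; nlinarith)
      (by push_cast; nlinarith) (by push_cast; nlinarith)
    rw [← add_assoc, gm_succ]
    refine ⟨by linarith [this.1], ?_, fun _ => ⟨this.1, h1⟩⟩
    push_cast
    exact this.2

end Pool.Agent.Lib.MP_f387d3_mp
end

-- part Pool.Agent.Lib.MP_f387d3_mp.Main
section

/-!
The probability increases strictly when moving inward through any bounded window around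
`t / sqrt 2`, for large `t`.
-/

set_option autoImplicit false

namespace Pool.Agent.Lib.MP_f387d3_mp

theorem normSq_formula (n b : ℕ) (h : 2 * (b : ℝ) < n) :
    ‖T n true ((n : ℤ) + 1 - 2 * b)‖ ^ 2
      = (((n : ℝ) - b) / (n - 2 * b)) ^ 2 * (g ((n : ℤ) - 1) b + gm ((n : ℤ) - 1) b) ^ 2
        + (gm ((n : ℤ) - 1) b) ^ 2 := by
  have h1 := T_normSq n ((n : ℤ) - b) b (by ring)
  have e1 : (n : ℤ) - b + 1 - b = n + 1 - 2 * b := by ring
  rw [e1] at h1
  rw [h1]
  have h2 := G_boost ((n : ℤ) - b - 1) ((b : ℤ) - 1)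
  simp only [sub_add_cancel] at h2
  have h2R := congrArg (fun z : ℤ => (z : ℝ)) h2
  push_cast at h2R
  unfold g gm
  have e2 : (n : ℤ) - 1 - b + 1 = n - b := by ring
  have e3 : (n : ℤ) - 1 - b = n - b - 1 := by ring
  rw [e2, e3]
  have hs : ((-1 : ℝ) ^ b) ^ 2 = 1 := by
    rw [← pow_mul, mul_comm, pow_mul]; simp
  have d : (n : ℝ) - 2 * b ≠ 0 := by linarith
  set A : ℝ := (G ((n : ℤ) - b) b : ℝ)
  set B : ℝ := (G ((n : ℤ) - b) ((b : ℤ) - 1) : ℝ)
  set D : ℝ := (G ((n : ℤ) - b - 1) b : ℝ)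
  have h3 : A - B = ((n : ℝ) - b) / (n - 2 * b) * (D - B) := by
    rw [div_mul_eq_mul_div, eq_div_iff d]
    linear_combination (-1 : ℝ) * h2R
  rw [h3]
  linear_combination (-((((n : ℝ) - b) / (n - 2 * b)) ^ 2 * (D - B) ^ 2 + B ^ 2)) * hs

theorem normSq_lt (n b : ℕ) (h : 2 * ((b : ℝ) + 1) < n)
    (h0 : 0 < gm ((n : ℤ) - 1) b) (h1 : gm ((n : ℤ) - 1) b ≤ g ((n : ℤ) - 1) b)
    (h2 : g ((n : ℤ) - 1) b ≤ g ((n : ℤ) - 1) (b + 1)) :
    ‖T n true ((n : ℤ) + 1 - 2 * b)‖ ^ 2 < ‖T n true ((n : ℤ) + 1 - 2 * ((b + 1 : ℕ) : ℤ))‖ ^ 2 := by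
  rw [normSq_formula n b (by linarith), normSq_formula n (b + 1) (by push_cast; linarith),
    gm_succ]
  have hb : (0 : ℝ) ≤ b := Nat.cast_nonneg b
  have d1 : 0 < (n : ℝ) - 2 * b := by linarith
  have d2 : 0 < (n : ℝ) - 2 * ((b + 1 : ℕ) : ℝ) := by push_cast; linarith
  have r0 : 0 < ((n : ℝ) - b) / (n - 2 * b) := div_pos (by linarith) d1
  have r1 : ((n : ℝ) - b) / (n - 2 * b)
      < ((n : ℝ) - ((b + 1 : ℕ) : ℝ)) / (n - 2 * ((b + 1 : ℕ) : ℝ)) := by
    rw [div_lt_div_iff₀ d1 d2]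
    push_cast
    nlinarith
  set x := gm ((n : ℤ) - 1) b
  set y := g ((n : ℤ) - 1) b
  set z := g ((n : ℤ) - 1) (b + 1)
  set p := ((n : ℝ) - b) / (n - 2 * b)
  set q := ((n : ℝ) - ((b + 1 : ℕ) : ℝ)) / (n - 2 * ((b + 1 : ℕ) : ℝ))
  have a1 : x ^ 2 ≤ y ^ 2 := pow_le_pow_left₀ h0.le h1 2
  have a2 : (y + x) ^ 2 ≤ (z + y) ^ 2 := pow_le_pow_left₀ (by linarith) (by linarith) 2
  have a3 : p ^ 2 < q ^ 2 := pow_lt_pow_left₀ r1 r0.le (by norm_num)
  have a4 : 0 < (y + x) ^ 2 := by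
    have : 0 < y + x := by linarith
    positivity
  have a5 : p ^ 2 * (y + x) ^ 2 < q ^ 2 * (y + x) ^ 2 := mul_lt_mul_of_pos_right a3 a4
  have a6 : q ^ 2 * (y + x) ^ 2 ≤ q ^ 2 * (z + y) ^ 2 :=
    mul_le_mul_of_nonneg_left a2 (sq_nonneg q)
  linarith

theorem exists_max (n : ℕ) :
    ∃ x : ℤ, ∀ y : ℤ, ‖T n true y‖ ^ 2 ≤ ‖T n true x‖ ^ 2 := by
  classical
  obtain ⟨x, -, hx⟩ := Finset.exists_max_image
    (Finset.univ.image (fun s : Fin (n+1) → Bool => ∑ i, (if s i then (1:ℤ) else -1)))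
    (fun y => ‖T n true y‖ ^ 2) (Finset.univ_nonempty.image _)
  refine ⟨x, fun y => ?_⟩
  by_cases hy : y ∈ Finset.univ.image
      (fun s : Fin (n+1) → Bool => ∑ i, (if s i then (1:ℤ) else -1))
  · exact hx y hy
  · have : T n true y = 0 := by
      unfold T
      apply Finset.sum_eq_zero
      intro s hs
      exfalso
      apply hy
      rw [Finset.mem_filter] at hs
      exact Finset.mem_image.2 ⟨s, Finset.mem_univ _, hs.2.2⟩
    rw [this]
    simp

theorem T_top (n : ℕ) : ‖T n true ((n : ℤ) + 1)‖ ^ 2 = 1 := by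
  have h1 := T_normSq n n 0 (by ring)
  rw [sub_zero, G_zero_right (by positivity), G_neg_right _ (by norm_num)] at h1
  simpa using h1

/-- For every `C` and all large `n`, every maximiser lies more than `C` below `(n+1)/sqrt 2`. -/
theorem maximiser_lt (C : ℝ) : ∃ n₀ : ℕ, ∀ n : ℕ, n₀ ≤ n → ∀ x : ℤ,
    (∀ y : ℤ, ‖T n true y‖ ^ 2 ≤ ‖T n true x‖ ^ 2) →
    ¬ |(x : ℝ) - ((n : ℝ) + 1) / Real.sqrt 2| ≤ C := by
  set K : ℝ := |C| + 2 with hK
  have hC : C ≤ |C| := le_abs_self C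
  have hC0 : 0 ≤ |C| := abs_nonneg C
  obtain ⟨I, hI⟩ := exists_nat_ge (4 * K + 2)
  obtain ⟨n₀, hn₀⟩ := exists_nat_ge (4 * (K + 2 * I + 16 * ((I : ℝ) + 1) ^ 4) + 4 * K + 8)
  refine ⟨n₀, fun n hn x hx hxC => ?_⟩
  have hn' : (n₀ : ℝ) ≤ n := by exact_mod_cast hn
  have hI0 : (0 : ℝ) ≤ I := Nat.cast_nonneg I
  have hI4 : (0 : ℝ) ≤ ((I : ℝ) + 1) ^ 4 := by positivity
  have hs0 : 0 < Real.sqrt 2 := by positivity
  have hs2 : Real.sqrt 2 ^ 2 = 2 := Real.sq_sqrt (by norm_num)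
  have hs1 : 4 / 3 ≤ Real.sqrt 2 := by nlinarith
  have hs3 : Real.sqrt 2 ≤ 2 := by nlinarith
  have hn0 : (0 : ℝ) ≤ n := Nat.cast_nonneg n
  set σ : ℝ := (n : ℝ) / Real.sqrt 2 with hσ
  have hσ2 : 2 * σ ^ 2 = ((((n : ℤ) - 1 : ℤ) : ℝ) + 1) ^ 2 := by
    rw [hσ, div_pow, hs2]; push_cast; ring
  have hσlo : (n : ℝ) / 2 ≤ σ := div_le_div_of_nonneg_left hn0 hs0 hs3
  have hup : ((n : ℝ) + 1) / Real.sqrt 2 ≤ ((n : ℝ) + 1) / (4 / 3) :=
    div_le_div_of_nonneg_left (by linarith) (by norm_num) hs1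
  have hlo : σ ≤ ((n : ℝ) + 1) / Real.sqrt 2 :=
    div_le_div_of_nonneg_right (by linarith) hs0.le
  obtain ⟨hx1, hx2⟩ := abs_le.1 hxC
  by_cases hpar : (x + n) % 2 = 0
  · have h1 := hx ((n : ℤ) + 1)
    rw [T_top, T_parity n true x hpar] at h1
    norm_num at h1
  · obtain ⟨b', hb'⟩ : ∃ b' : ℤ, x = n + 1 - 2 * b' := ⟨(n + 1 - x) / 2, by omega⟩
    have hxR : (x : ℝ) = n + 1 - 2 * b' := by exact_mod_cast hb'
    have hb1 : (I : ℝ) + 8 * ((I : ℝ) + 1) ^ 4 ≤ b' := by linarith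
    have hb2 : (I : ℤ) ≤ b' := by
      have : (I : ℝ) ≤ b' := by linarith
      exact_mod_cast this
    obtain ⟨j, hj⟩ : ∃ j : ℕ, b' = ((j + I : ℕ) : ℤ) := ⟨(b' - I).toNat, by push_cast; omega⟩
    subst hj
    push_cast at hxR hb1
    have hI1 : 1 ≤ I := by
      have : (1 : ℝ) ≤ I := by linarith
      exact_mod_cast this
    have P := phase_two ((n : ℤ) - 1) σ K hσ2 (by linarith) (by linarith) I j (by linarith)
      (by push_cast; linarith) (by linarith)
    obtain ⟨-, -, p1⟩ := P I (by omega)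
    obtain ⟨-, -, p2⟩ := P (I + 1) le_rfl
    have p3 := (p2 (by omega)).1
    rw [← add_assoc, gm_succ] at p3
    have := normSq_lt n (j + I) (by push_cast; linarith) (p1 hI1).2 (p1 hI1).1 p3
    rw [← hb'] at this
    exact absurd (hx _) (not_le.2 this)

end Pool.Agent.Lib.MP_f387d3_mp
end
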