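import Mathlib
import Pool.Agent.Lib.MP_f387d3_mp.Main

/-!
A sharper barrier: the probability increases strictly when moving inward through all points above
`t / sqrt 2 - t ^ (1/3) / 50`.
-/

set_option autoImplicit false

namespace Pool.Agent.Lib.MP_f387d3_mp

theorem phase_two' (N : ℤ) (σ K : ℝ) (hσ : 2 * σ ^ 2 = ((N : ℝ) + 1) ^ 2) (hK : 0 ≤ K)
    (hσ1 : 2 * K + 4 ≤ σ) (I j : ℕ) (hI : 7 * K + 2 ≤ I)
    (hδ : σ - K ≤ (N : ℝ) - 2 * (j + I))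
    (hj : 8 * (I : ℝ) ^ 3 ≤ j) (i : ℕ) (hi : i ≤ I + 1) :
    0 < g N (j + i) ∧ (i : ℝ) * (2 * I + 2 - 2 * i) * g N (j + i) ≤ W N (j + i) ∧
      (1 ≤ i → gm N (j + i) ≤ g N (j + i) ∧ 0 < gm N (j + i)) := by
  have hI0 : (2 : ℝ) ≤ I := by linarith
  induction i with
  | zero =>
    have := phase_one N σ hσ (by linarith) j (by linarith)
    simpa using this
  | succ i ih =>
    obtain ⟨h1, h2, -⟩ := ih (by omega)
    have hiI : (i : ℝ) ≤ I := by exact_mod_cast (by omega : i ≤ I)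
    have hi0 : (0 : ℝ) ≤ i := Nat.cast_nonneg i
    have hδ' : σ - K ≤ (N : ℝ) - 2 * ((j + i : ℕ) : ℝ) := by push_cast; linarith
    have hV := V_lower _ σ _ K hσ hK hσ1 hδ'
    have hq0 : 0 ≤ ((i : ℝ) + 1) * (2 * I + 2 - 2 * (i + 1)) :=
      mul_nonneg (by linarith) (by linarith)
    have hq1 : ((i : ℝ) + 1) * (2 * I + 2 - 2 * (i + 1)) ≤ 2 * (I : ℝ) ^ 2 := by
      nlinarith [sq_nonneg ((I : ℝ) + 1 - 2 * (i + 1))]
    have hq2 : (((i : ℝ) + 1) * (2 * I + 2 - 2 * (i + 1))) ^ 2 ≤ (2 * (I : ℝ) ^ 2) ^ 2 :=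
      pow_le_pow_left₀ hq0 hq1 2
    have hI2 : (I : ℝ) ^ 2 ≤ (I : ℝ) ^ 3 := by nlinarith
    have hI3 : (I : ℝ) * (8 * (I : ℝ) ^ 3) ≤ I * ((j : ℝ) + i + 1) :=
      mul_le_mul_of_nonneg_left (by linarith) (by linarith)
    have := step N (j + i) (by linarith) ((i : ℝ) * (2 * I + 2 - 2 * i))
      (((i : ℝ) + 1) * (2 * I + 2 - 2 * (i + 1))) I h1 h2 hq0 (by linarith)
      (by push_cast at hV ⊢; nlinarith)
      (by push_cast; nlinarith) (by push_cast; nlinarith)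
    rw [← add_assoc, gm_succ]
    refine ⟨by linarith [this.1], ?_, fun _ => ⟨this.1, h1⟩⟩
    push_cast
    exact this.2

theorem normSq_lt' (n b : ℕ) (h : 2 * ((b : ℝ) + 1) < n)
    (h0 : 0 ≤ gm ((n : ℤ) - 1) b) (h0' : 0 < g ((n : ℤ) - 1) b)
    (h1 : gm ((n : ℤ) - 1) b ≤ g ((n : ℤ) - 1) b)
    (h2 : g ((n : ℤ) - 1) b ≤ g ((n : ℤ) - 1) (b + 1)) :
    ‖T n true ((n : ℤ) + 1 - 2 * b)‖ ^ 2 < ‖T n true ((n : ℤ) + 1 - 2 * ((b + 1 : ℕ) : ℤ))‖ ^ 2 := by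
  rw [normSq_formula n b (by linarith), normSq_formula n (b + 1) (by push_cast; linarith),
    gm_succ]
  have hb : (0 : ℝ) ≤ b := Nat.cast_nonneg b
  have d1 : 0 < (n : ℝ) - 2 * b := by linarith
  have d2 : 0 < (n : ℝ) - 2 * ((b + 1 : ℕ) : ℝ) := by push_cast; linarith
  have r0 : 0 < ((n : ℝ) - b) / (n - 2 * b) := div_pos (by linarith) d1
  have r1 : ((n : ℝ) - b) / (n - 2 * b)
      < ((n : ℝ) - ((b + 1 : ℕ) : ℝ)) / (n - 2 * ((b + 1 : ℕ) : ℝ)) := by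
    rw [div_lt_div_iff₀ d1 d2]
    push_cast
    nlinarith
  set x := gm ((n : ℤ) - 1) b
  set y := g ((n : ℤ) - 1) b
  set z := g ((n : ℤ) - 1) (b + 1)
  set p := ((n : ℝ) - b) / (n - 2 * b)
  set q := ((n : ℝ) - ((b + 1 : ℕ) : ℝ)) / (n - 2 * ((b + 1 : ℕ) : ℝ))
  have a1 : x ^ 2 ≤ y ^ 2 := pow_le_pow_left₀ h0 h1 2
  have a2 : (y + x) ^ 2 ≤ (z + y) ^ 2 := pow_le_pow_left₀ (by linarith) (by linarith) 2
  have a3 : p ^ 2 < q ^ 2 := pow_lt_pow_left₀ r1 r0.le (by norm_num)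
  have a4 : 0 < (y + x) ^ 2 := by
    have : 0 < y + x := by linarith
    positivity
  have a5 : p ^ 2 * (y + x) ^ 2 < q ^ 2 * (y + x) ^ 2 := mul_lt_mul_of_pos_right a3 a4
  have a6 : q ^ 2 * (y + x) ^ 2 ≤ q ^ 2 * (z + y) ^ 2 :=
    mul_le_mul_of_nonneg_left a2 (sq_nonneg q)
  linarith

theorem phase_one_mono (N : ℤ) (σ : ℝ) (hσ : 2 * σ ^ 2 = ((N : ℝ) + 1) ^ 2) (hσ1 : 1 ≤ σ) (j : ℕ)
    (hj : σ + 1 ≤ (N : ℝ) - 2 * j) : g N j ≤ g N (j + 1) := by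
  obtain ⟨h1, h2⟩ := phase_one N σ hσ hσ1 j hj
  have hV := V_nonneg _ σ _ hσ hσ1 hj
  have hj0 : (0 : ℝ) ≤ j := Nat.cast_nonneg j
  exact (step N j (by linarith) 0 0 0 h1 (by simpa using h2) le_rfl le_rfl (by linarith)
    (by linarith) (by simp)).1

theorem T_far (n : ℕ) (x : ℤ) (h : (n : ℤ) + 1 < x) : T n true x = 0 := by
  unfold T
  apply Finset.sum_eq_zero
  intro s hs
  exfalso
  have h1 := (Finset.mem_filter.1 hs).2.2
  have h2 : ∑ i, (if s i then (1 : ℤ) else -1) ≤ ∑ _i : Fin (n + 1), (1 : ℤ) :=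
    Finset.sum_le_sum fun i _ => by split_ifs <;> norm_num
  simp only [Finset.sum_const, Finset.card_univ, Fintype.card_fin, nsmul_eq_mul, mul_one] at h2
  push_cast at h2
  omega

theorem maximiser_cube (n : ℕ) (u : ℝ) (hu : u ^ 3 = (n : ℝ) + 1) (hu4 : 400 ≤ u) (x : ℤ)
    (hx : ∀ y : ℤ, ‖T n true y‖ ^ 2 ≤ ‖T n true x‖ ^ 2) :
    (x : ℝ) < ((n : ℝ) + 1) / Real.sqrt 2 - u / 50 := by
  by_contra hxC
  push Not at hxC
  set K : ℝ := u / 50 + 2 with hK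
  set I : ℕ := ⌈7 * K + 2⌉₊ with hIdef
  have hI : 7 * K + 2 ≤ I := Nat.le_ceil _
  have hI' : (I : ℝ) < 7 * K + 2 + 1 := Nat.ceil_lt_add_one (by linarith)
  have hIu : (I : ℝ) ≤ u / 5 := by linarith
  have hI0 : (0 : ℝ) ≤ I := Nat.cast_nonneg I
  have hI3 : (I : ℝ) ^ 3 ≤ (u / 5) ^ 3 := pow_le_pow_left₀ hI0 hIu 3
  have hI3' : (I : ℝ) ^ 3 ≤ ((n : ℝ) + 1) / 125 := by rw [← hu]; linarith [hI3]
  have hu2 : 160000 ≤ u ^ 2 := by nlinarith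
  have hu3 : 160000 * u ≤ (n : ℝ) + 1 := by rw [← hu]; nlinarith
  have hs0 : 0 < Real.sqrt 2 := by positivity
  have hs2 : Real.sqrt 2 ^ 2 = 2 := Real.sq_sqrt (by norm_num)
  have hs1 : 4 / 3 ≤ Real.sqrt 2 := by nlinarith
  have hs3 : Real.sqrt 2 ≤ 3 / 2 := by nlinarith
  have hn0 : (0 : ℝ) ≤ n := Nat.cast_nonneg n
  set σ : ℝ := (n : ℝ) / Real.sqrt 2 with hσ
  have hσ2 : 2 * σ ^ 2 = ((((n : ℤ) - 1 : ℤ) : ℝ) + 1) ^ 2 := by
    rw [hσ, div_pow, hs2]; push_cast; ring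
  have hσlo : (n : ℝ) / (3 / 2) ≤ σ := div_le_div_of_nonneg_left hn0 hs0 hs3
  have hσhi : σ ≤ (n : ℝ) / (4 / 3) := div_le_div_of_nonneg_left hn0 (by norm_num) hs1
  have hlo : σ ≤ ((n : ℝ) + 1) / Real.sqrt 2 :=
    div_le_div_of_nonneg_right (by linarith) hs0.le
  have hzero : T n true x ≠ 0 := by
    intro h
    have h1 := hx ((n : ℤ) + 1)
    rw [T_top, h] at h1
    norm_num at h1
  have hpar : ¬ (x + n) % 2 = 0 := fun h => hzero (T_parity n true x h)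
  have htop : x ≤ n + 1 := not_lt.1 fun h => hzero (T_far n x h)
  obtain ⟨b, hb⟩ : ∃ b : ℕ, x = n + 1 - 2 * (b : ℤ) := ⟨((n + 1 - x) / 2).toNat, by omega⟩
  have hxR : (x : ℝ) = n + 1 - 2 * b := by exact_mod_cast hb
  have hb2 : 2 * ((b : ℝ) + 1) < n := by linarith
  have key : ‖T n true ((n : ℤ) + 1 - 2 * b)‖ ^ 2
      < ‖T n true ((n : ℤ) + 1 - 2 * ((b + 1 : ℕ) : ℤ))‖ ^ 2 := by
    by_cases hbig : (I : ℝ) + 8 * (I : ℝ) ^ 3 ≤ b
    · have hI8 : (0 : ℝ) ≤ 8 * (I : ℝ) ^ 3 := by positivity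
      have hbI : I ≤ b := by
        have : (I : ℝ) ≤ b := by linarith
        exact_mod_cast this
      obtain ⟨j, rfl⟩ : ∃ j : ℕ, b = j + I := ⟨b - I, by omega⟩
      push_cast at hxR hbig
      have hI1 : 1 ≤ I := by
        have : (1 : ℝ) ≤ I := by linarith
        exact_mod_cast this
      have P := phase_two' ((n : ℤ) - 1) σ K hσ2 (by linarith) (by linarith) I j hI
        (by push_cast; linarith) (by linarith)
      obtain ⟨-, -, p1⟩ := P I (by omega)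
      obtain ⟨-, -, p2⟩ := P (I + 1) le_rfl
      have p3 := (p2 (by omega)).1
      rw [← add_assoc, gm_succ] at p3
      exact normSq_lt n (j + I) hb2 (p1 hI1).2 (p1 hI1).1 p3
    · push Not at hbig
      have hj : σ + 1 ≤ ((((n : ℤ) - 1 : ℤ)) : ℝ) - 2 * b := by push_cast; linarith
      have hσ1 : 1 ≤ σ := by linarith
      have q1 := (phase_one _ σ hσ2 hσ1 b hj).1
      have q2 := phase_one_mono _ σ hσ2 hσ1 b hj
      rcases b with _ | b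
      · exact normSq_lt' n 0 hb2 (by rw [gm_zero]) q1 (by rw [gm_zero]; exact q1.le) q2
      · have hj' : σ + 1 ≤ ((((n : ℤ) - 1 : ℤ)) : ℝ) - 2 * b := by
          push_cast at hj ⊢; linarith
        exact normSq_lt' n (b + 1) hb2 (by rw [gm_succ]; exact (phase_one _ σ hσ2 hσ1 b hj').1.le)
          q1 (by rw [gm_succ]; exact phase_one_mono _ σ hσ2 hσ1 b hj') q2
  rw [← hb] at key
  exact absurd (hx _) (not_le.2 key)

end Pool.Agent.Lib.MP_f387d3_mp
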